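import Pool.Agent.helper59.PT.Spec

set_option linter.all false
set_option autoImplicit false

/-!
# Pate's inequality for three copies (MP_2dd521_co), row pt:LR
-/

namespace Pool.Agent.helper59.PT

open MvPolynomial
open scoped ComplexConjugate ComplexOrder

theorem LR_rotS_inj : Function.Injective rotS := by decide

theorem LR_thS_inj : Function.Injective thS := by decide

theorem LR_Lam_monomial {ι : Type} [Fintype ι] (L : MvPolynomial (Sl × ι) ℂ →ₗ[ℂ] ℂ) (e : ι → ℂ)
    (F : MvPolynomial ι ℂ) (n : Sl →₀ ℕ) :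
    Lam L e F (monomial n 1) = (L (GM e F (fun p => n (Sum.inl p)) (fun q => n (Sum.inr q)))).re := by
  have h := (basisMonomials Sl ℝ).constr_basis ℝ (fun n : Sl →₀ ℕ =>
    (L (GM e F (fun p => n (Sum.inl p)) (fun q => n (Sum.inr q)))).re) n
  rw [coe_basisMonomials] at h
  exact h

theorem LR_rot_GM {ι : Type} [Fintype ι] (e : ι → ℂ) (F : MvPolynomial ι ℂ) (a b : Fin 3 → ℕ) :
    rename (fun v : Sl × ι => (rotS v.1, v.2)) (GM e F a b) =
      GM e F (fun p => a (p - 1)) (fun q => b (q - 1)) := by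
  unfold GM
  rw [map_mul, map_prod, map_prod]
  congr 1
  · refine Fintype.prod_equiv (Equiv.addRight (1 : Fin 3)) _ _ fun p => ?_
    unfold pl
    rw [rename_rename]
    simp only [Equiv.coe_addRight, add_sub_cancel_right]
    rfl
  · refine Fintype.prod_equiv (Equiv.addRight (1 : Fin 3)) _ _ fun p => ?_
    unfold pl
    rw [rename_rename]
    simp only [Equiv.coe_addRight, add_sub_cancel_right]
    rfl

theorem LR_cj_pl {ι : Type} (σ : Sl) (F : MvPolynomial ι ℂ) : cj (pl σ F) = pl σ (cj F) := by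
  unfold cj pl
  rw [map_rename]

theorem LR_cj_cj {ι : Type} (F : MvPolynomial ι ℂ) : cj (cj F) = F := by
  unfold cj
  rw [map_map]
  have : (starRingEnd ℂ).comp (starRingEnd ℂ) = RingHom.id ℂ := by
    ext x <;> simp
  rw [this, map_id]

theorem LR_ref_GM {ι : Type} [Fintype ι] (e : ι → ℂ) (F : MvPolynomial ι ℂ) (a b : Fin 3 → ℕ) :
    rename (fun v : Sl × ι => (thS v.1, v.2)) (cj (GM e F a b)) =
      GM e F (fun p => b (2 - p)) (fun q => a (2 - q)) := by
  have h1 : cj (GM e F a b) = (∏ p, pl (Sum.inl p) (cj ((dE e)^[a p] F))) *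
      ∏ q, pl (Sum.inr q) ((dE e)^[b q] F) := by
    unfold GM
    have : ∀ P Q : MvPolynomial (Sl × ι) ℂ, cj (P * Q) = cj P * cj Q := fun P Q => by
      unfold cj; rw [map_mul]
    rw [this]
    have h2 : ∀ g : Fin 3 → MvPolynomial (Sl × ι) ℂ, cj (∏ p, g p) = ∏ p, cj (g p) := fun g => by
      unfold cj; rw [map_prod]
    rw [h2, h2]
    congr 1
    · exact Finset.prod_congr rfl fun p _ => LR_cj_pl _ _
    · refine Finset.prod_congr rfl fun p _ => ?_
      rw [LR_cj_pl, LR_cj_cj]
  rw [h1, map_mul, map_prod, map_prod, mul_comm]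
  unfold GM
  congr 1
  · refine Fintype.prod_equiv (Equiv.subLeft (2 : Fin 3)) _ _ fun p => ?_
    unfold pl
    rw [rename_rename]
    simp only [Equiv.subLeft_apply, sub_sub_cancel]
    rfl
  · refine Fintype.prod_equiv (Equiv.subLeft (2 : Fin 3)) _ _ fun p => ?_
    unfold pl
    rw [rename_rename]
    simp only [Equiv.subLeft_apply, sub_sub_cancel]
    rfl

theorem rowLR (hRO : RowRO) (hRE : RowRE) : RowLR := by
  intro ι _ _ c L hL e F
  constructor
  · intro A
    have h : (Lam L e F).comp (rename rotS : Sy →ₐ[ℝ] Sy).toLinearMap = Lam L e F := by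
      refine (basisMonomials Sl ℝ).ext fun n => ?_
      rw [coe_basisMonomials, LinearMap.comp_apply, AlgHom.toLinearMap_apply, rename_monomial,
        LR_Lam_monomial, LR_Lam_monomial]
      have h1 : ∀ p : Fin 3, Finsupp.mapDomain rotS n (Sum.inl p) = n (Sum.inl (p - 1)) := by
        intro p
        have : (Sum.inl p : Sl) = rotS (Sum.inl (p - 1)) := by simp [rotS]
        rw [this, Finsupp.mapDomain_apply LR_rotS_inj]
      have h2 : ∀ p : Fin 3, Finsupp.mapDomain rotS n (Sum.inr p) = n (Sum.inr (p - 1)) := by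
        intro p
        have : (Sum.inr p : Sl) = rotS (Sum.inr (p - 1)) := by simp [rotS]
        rw [this, Finsupp.mapDomain_apply LR_rotS_inj]
      simp only [h1, h2]
      rw [← LR_rot_GM e F (fun p => n (Sum.inl p)) (fun q => n (Sum.inr q)), hRO ι c L hL]
    exact LinearMap.congr_fun h A
  · intro A
    have h : (Lam L e F).comp (rename thS : Sy →ₐ[ℝ] Sy).toLinearMap = Lam L e F := by
      refine (basisMonomials Sl ℝ).ext fun n => ?_
      rw [coe_basisMonomials, LinearMap.comp_apply, AlgHom.toLinearMap_apply, rename_monomial,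
        LR_Lam_monomial, LR_Lam_monomial]
      have h1 : ∀ p : Fin 3, Finsupp.mapDomain thS n (Sum.inl p) = n (Sum.inr (2 - p)) := by
        intro p
        have : (Sum.inl p : Sl) = thS (Sum.inr (2 - p)) := by simp [thS]
        rw [this, Finsupp.mapDomain_apply LR_thS_inj]
      have h2 : ∀ p : Fin 3, Finsupp.mapDomain thS n (Sum.inr p) = n (Sum.inl (2 - p)) := by
        intro p
        have : (Sum.inr p : Sl) = thS (Sum.inl (2 - p)) := by simp [thS]
        rw [this, Finsupp.mapDomain_apply LR_thS_inj]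
      simp only [h1, h2]
      rw [← LR_ref_GM e F (fun p => n (Sum.inl p)) (fun q => n (Sum.inr q)), hRE ι c L hL]
      simp
    exact LinearMap.congr_fun h A

end Pool.Agent.helper59.PT
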